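import Mathlib

/-! Certificates for the smoothness of the surface `w^2 = F(t, x, y)` over the curve
`y^2 = x^3 + x` in its four charts: the 2x2 minors of the Jacobian matrix generate the unit ideal;
and for the smoothness of the fibres over the `t`-line outside explicit polynomials. -/

namespace BB37.Cert

section

variable {C : Type*} [CommRing C] [Algebra ℚ C]

theorem cancel (n : ℕ) (hn : n ≠ 0) {a : C} (h : (n : C) * a = 0) : a = 0 := by
  have h1 : (algebraMap ℚ C (n : ℚ)⁻¹) * (n : C) = 1 := by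
    have h2 : (n : C) = algebraMap ℚ C (n : ℚ) := (map_natCast _ n).symm
    rw [h2, ← map_mul, inv_mul_cancel₀ (Nat.cast_ne_zero.2 hn), map_one]
  calc a = (algebraMap ℚ C (n : ℚ)⁻¹) * (n : C) * a := by rw [h1, one_mul]
    _ = 0 := by rw [mul_assoc, h, mul_zero]

/-- on the curve `y^2 = x^3 + x`: an element killed by `3x^2+1` and by `y` vanishes -/
theorem curve_unit {x y z : C} (h : y ^ 2 = x ^ 3 + x) (h1 : (3 * x ^ 2 + 1) * z = 0)
    (h2 : y * z = 0) : z = 0 := by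
  apply cancel 2 two_ne_zero
  push_cast
  linear_combination (2 + 3 * x ^ 2) * h1 - 9 * x * y * h2 + 9 * x * z * h

theorem bezA {x : C} (hP : -9 + 4 * x - 24 * x ^ 2 + 12 * x ^ 3 - 16 * x ^ 4 + 12 * x ^ 5 + 4 * x ^ 7 = 0)
    (hQ : 2 - 96 * x + 48 * x ^ 2 - 128 * x ^ 3 + 78 * x ^ 4 + 32 * x ^ 6 = 0) : (1 : C) = 0 := by
  apply cancel 865101 (by norm_num)
  push_cast
  linear_combination
      (271659 - 17609808 * x + 4437368 * x ^ 2 + 1459120 * x ^ 3 + 4473216 * x ^ 4 + 761088 * x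
      ^ 5) * hP + (1655016 - 346686 * x + 2086368 * x ^ 2 - 869194 * x ^ 3 - 235904 * x ^ 4 -
      559152 * x ^ 5 - 95136 * x ^ 6) * hQ

theorem bezC {x : C} (hP : -9 + 4 * x - 24 * x ^ 2 + 12 * x ^ 3 - 16 * x ^ 4 + 12 * x ^ 5 + 4 * x ^ 7 = 0)
    (hQ : 1 - 3 * x + 6 * x ^ 2 - 4 * x ^ 3 + 12 * x ^ 4 + 10 * x ^ 6 + 3 * x ^ 8 = 0) : (1 : C) = 0 := by
  apply cancel 865101 (by norm_num)
  push_cast
  linear_combination
      (6024283 - 18156148 * x + 28105272 * x ^ 2 + 876276 * x ^ 3 + 35691408 * x ^ 4 + 836452 *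
      x ^ 5 + 13825152 * x ^ 6 + 264252 * x ^ 7) * hP + (55083648 - 22251520 * x + 72898384 * x
      ^ 2 - 40034688 * x ^ 3 - 997824 * x ^ 4 - 18433536 * x ^ 5 - 352336 * x ^ 6) * hQ

theorem bezB {s : C} (hP : -4 * s - 12 * s ^ 3 + 16 * s ^ 4 - 12 * s ^ 5 + 24 * s ^ 6 - 4 * s ^ 7 + 9 * s ^ 8 = 0)
    (hQ : 1 + 6 * s ^ 2 - 16 * s ^ 3 + 12 * s ^ 4 - 36 * s ^ 5 + 10 * s ^ 6 - 30 * s ^ 7 + 3 * s ^ 8 - 9 * s ^ 9 =
      0) : (1 : C) = 0 := by
  apply cancel 865101 (by norm_num)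
  push_cast
  linear_combination
      (-830883 + 2379433 * s - 8696878 * s ^ 2 + 15693466 * s ^ 3 - 16062364 * s ^ 4 + 19935292
      * s ^ 5 - 11373666 * s ^ 6 + 8985468 * s ^ 7 - 2601054 * s ^ 8) * hP + (865101 - 3323532
      * s + 4327126 * s ^ 2 - 10975300 * s ^ 3 + 15100708 * s ^ 4 - 10541680 * s ^ 5 + 9274474
      * s ^ 6 - 2601054 * s ^ 7) * hQ

/-- chart `(t, x, y, w)` -/
theorem smoothA {t x y w : C} (h1 : y ^ 2 = x ^ 3 + x)
    (h2 : w ^ 2 = 2 * t ^ 2 * x ^ 2 + 2 * t ^ 2 + 2 * t + y + 2)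
    (m1 : (3 * x ^ 2 + 1) * (4 * t * x ^ 2 + 4 * t + 2) = 0)
    (m2 : 2 * y * (4 * t * x ^ 2 + 4 * t + 2) = 0)
    (m3 : (3 * x ^ 2 + 1) * (2 * w) = 0) (m4 : 2 * y * (2 * w) = 0)
    (m5 : (3 * x ^ 2 + 1) + 2 * y * (4 * t ^ 2 * x) = 0) : (1 : C) = 0 := by
  have hw : w = 0 := by
    apply cancel 4 (by norm_num)
    have h := curve_unit (z := 4 * w) h1 (by linear_combination 2 * m3) (by linear_combination m4)
    push_cast
    exact h
  have ht : 4 * t * x ^ 2 + 4 * t + 2 = 0 := by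
    apply cancel 2 (by norm_num)
    have h := curve_unit (z := 2 * (4 * t * x ^ 2 + 4 * t + 2)) h1
      (by linear_combination 2 * m1) (by linear_combination m2)
    push_cast
    exact h
  have hF : 2 * t ^ 2 * x ^ 2 + 2 * t ^ 2 + 2 * t + y + 2 = 0 := by
    rw [← h2, hw]
    ring
  have hty : t + y + 2 = 0 := by
    apply cancel 2 (by norm_num)
    push_cast
    linear_combination 2 * hF - t * ht
  have e1 : 2 * (y + 2) * (x ^ 2 + 1) - 1 = 0 := by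
    apply cancel 2 (by norm_num)
    push_cast
    linear_combination 4 * (x ^ 2 + 1) * hty - ht
  have e2 : 32 * x ^ 4 + 35 * x ^ 2 + 1 + y * (8 * x ^ 4 + 8 * x ^ 2 + 32 * x) = 0 := by
    linear_combination m5 - 8 * x * y * (t - y - 2) * hty - 8 * x * (y + 4) * h1
  apply bezA (x := x)
  · linear_combination (2 * y * (x ^ 2 + 1) - (4 * x ^ 2 + 3)) * e1 -
      4 * (x ^ 2 + 1) ^ 2 * h1
  · linear_combination (2 * x ^ 2 + 2) * e2 - (8 * x ^ 4 + 8 * x ^ 2 + 32 * x) * e1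

/-- chart `(t, s, h, w)`, `s = 1/x`, `h = y/x^2` -/
theorem smoothB {t s h w : C} (h1 : h ^ 2 = s ^ 3 + s)
    (h2 : w ^ 2 = 2 * t ^ 2 + 2 * t ^ 2 * s ^ 2 + 2 * t * s ^ 2 + h + 2 * s ^ 2)
    (m1 : (3 * s ^ 2 + 1) * (4 * t + 4 * t * s ^ 2 + 2 * s ^ 2) = 0)
    (m2 : 2 * h * (4 * t + 4 * t * s ^ 2 + 2 * s ^ 2) = 0)
    (m3 : (3 * s ^ 2 + 1) * (2 * w) = 0) (m4 : 2 * h * (2 * w) = 0)
    (m5 : (3 * s ^ 2 + 1) + 2 * h * (4 * t ^ 2 * s + 4 * t * s + 4 * s) = 0) : (1 : C) = 0 := by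
  have hw : w = 0 := by
    apply cancel 4 (by norm_num)
    have h := curve_unit (z := 4 * w) h1 (by linear_combination 2 * m3) (by linear_combination m4)
    push_cast
    exact h
  have ht : 4 * t + 4 * t * s ^ 2 + 2 * s ^ 2 = 0 := by
    apply cancel 2 (by norm_num)
    have h := curve_unit (z := 2 * (4 * t + 4 * t * s ^ 2 + 2 * s ^ 2)) h1
      (by linear_combination 2 * m1) (by linear_combination m2)
    push_cast
    exact h
  have hF : 2 * t ^ 2 + 2 * t ^ 2 * s ^ 2 + 2 * t * s ^ 2 + h + 2 * s ^ 2 = 0 := by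
    rw [← h2, hw]
    ring
  have hh : h + s ^ 2 * (t + 2) = 0 := by
    apply cancel 2 (by norm_num)
    push_cast
    linear_combination 2 * hF - t * ht
  have hta : 2 * t * (1 + s ^ 2) + s ^ 2 = 0 := by
    apply cancel 2 (by norm_num)
    push_cast
    linear_combination ht
  have e1 : 2 * (1 + s ^ 2) * h + s ^ 2 * (4 + 3 * s ^ 2) = 0 := by
    linear_combination 2 * (1 + s ^ 2) * hh - s ^ 2 * hta
  apply bezB (s := s)
  · linear_combination (s ^ 2 * (4 + 3 * s ^ 2) - 2 * (1 + s ^ 2) * h) * e1 +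
      4 * (1 + s ^ 2) ^ 2 * h1
  · have e3 : 4 * (1 + s ^ 2) ^ 2 * (t ^ 2 + t + 1) - (3 * s ^ 4 + 6 * s ^ 2 + 4) = 0 := by
      linear_combination (2 * t * (1 + s ^ 2) - s ^ 2 + 2 * (1 + s ^ 2)) * hta
    linear_combination (1 + s ^ 2) ^ 3 * m5 - 2 * (1 + s ^ 2) * h * s * e3 -
      s * (3 * s ^ 4 + 6 * s ^ 2 + 4) * e1

/-- chart `(s, x, y, w)`, `s = 1/t` -/
theorem smoothC {s x y w : C} (h1 : y ^ 2 = x ^ 3 + x)
    (h2 : w ^ 2 = 2 * x ^ 2 + 2 + 2 * s + s ^ 2 * (y + 2))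
    (m1 : (3 * x ^ 2 + 1) * (2 + 2 * s * (y + 2)) = 0)
    (m2 : 2 * y * (2 + 2 * s * (y + 2)) = 0)
    (m3 : (3 * x ^ 2 + 1) * (2 * w) = 0) (m4 : 2 * y * (2 * w) = 0)
    (m5 : (3 * x ^ 2 + 1) * s ^ 2 + 2 * y * (4 * x) = 0) : (1 : C) = 0 := by
  have hw : w = 0 := by
    apply cancel 4 (by norm_num)
    have h := curve_unit (z := 4 * w) h1 (by linear_combination 2 * m3) (by linear_combination m4)
    push_cast
    exact h
  have ht : 1 + s * (y + 2) = 0 := by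
    apply cancel 4 (by norm_num)
    have h := curve_unit (z := 2 * (2 + 2 * s * (y + 2))) h1
      (by linear_combination 2 * m1) (by linear_combination m2)
    push_cast
    linear_combination h
  have hF : 2 * x ^ 2 + 2 + 2 * s + s ^ 2 * (y + 2) = 0 := by
    rw [← h2, hw]
    ring
  have hs : s + 2 * (x ^ 2 + 1) = 0 := by
    linear_combination hF - s * ht
  have e1 : 2 * (y + 2) * (x ^ 2 + 1) - 1 = 0 := by
    linear_combination (y + 2) * hs - ht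
  have e2 : (3 * x ^ 2 + 1) * (x ^ 2 + 1) ^ 2 + 2 * x * y = 0 := by
    apply cancel 4 (by norm_num)
    push_cast
    linear_combination m5 - (3 * x ^ 2 + 1) * (s - 2 * (x ^ 2 + 1)) * hs
  apply bezC (x := x)
  · linear_combination (2 * y * (x ^ 2 + 1) - (4 * x ^ 2 + 3)) * e1 -
      4 * (x ^ 2 + 1) ^ 2 * h1
  · linear_combination (x ^ 2 + 1) * e2 - x * e1

/-- chart `(r, s, h, w)`, `r = 1/t`, `s = 1/x`, `h = y/x^2` -/
theorem smoothD {r s h w : C} (h1 : h ^ 2 = s ^ 3 + s)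
    (h2 : w ^ 2 = 2 + 2 * s ^ 2 + 2 * r * s ^ 2 + r ^ 2 * (h + 2 * s ^ 2))
    (m1 : (3 * s ^ 2 + 1) * (2 * s ^ 2 + 2 * r * (h + 2 * s ^ 2)) = 0)
    (m2 : 2 * h * (2 * s ^ 2 + 2 * r * (h + 2 * s ^ 2)) = 0)
    (m3 : (3 * s ^ 2 + 1) * (2 * w) = 0) (m4 : 2 * h * (2 * w) = 0)
    (m5 : (3 * s ^ 2 + 1) * r ^ 2 + 2 * h * (4 * s + 4 * r * s + 4 * r ^ 2 * s) = 0) :
    (1 : C) = 0 := by
  have hw : w = 0 := by
    apply cancel 4 (by norm_num)
    have h := curve_unit (z := 4 * w) h1 (by linear_combination 2 * m3) (by linear_combination m4)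
    push_cast
    exact h
  have ht : s ^ 2 + r * (h + 2 * s ^ 2) = 0 := by
    apply cancel 4 (by norm_num)
    have h := curve_unit (z := 2 * (2 * s ^ 2 + 2 * r * (h + 2 * s ^ 2))) h1
      (by linear_combination 2 * m1) (by linear_combination m2)
    push_cast
    linear_combination h
  have hF : 2 + 2 * s ^ 2 + 2 * r * s ^ 2 + r ^ 2 * (h + 2 * s ^ 2) = 0 := by
    rw [← h2, hw]
    ring
  have hr : r * s ^ 2 + 2 * (1 + s ^ 2) = 0 := by
    linear_combination hF - r * ht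
  have e1 : 2 * (1 + s ^ 2) * h + s ^ 2 * (4 + 3 * s ^ 2) = 0 := by
    linear_combination (h + 2 * s ^ 2) * hr - s ^ 2 * ht
  apply bezB (s := s)
  · linear_combination (s ^ 2 * (4 + 3 * s ^ 2) - 2 * (1 + s ^ 2) * h) * e1 +
      4 * (1 + s ^ 2) ^ 2 * h1
  · apply cancel 4 (by norm_num)
    push_cast
    have e3 : s ^ 4 + s ^ 2 * (r * s ^ 2) + (r * s ^ 2) ^ 2 - (3 * s ^ 4 + 6 * s ^ 2 + 4) = 0 := by
      linear_combination (r * s ^ 2 - 2 * (1 + s ^ 2) + s ^ 2) * hr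
    linear_combination s ^ 4 * (1 + s ^ 2) * m5 -
      (3 * s ^ 2 + 1) * (1 + s ^ 2) * (r * s ^ 2 - 2 * (1 + s ^ 2)) * hr -
      8 * s * h * (1 + s ^ 2) * e3 - 4 * s * (3 * s ^ 4 + 6 * s ^ 2 + 4) * e1

end

end BB37.Cert
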