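import Pool.Agent.Lib.MP_bb37eb_nt.AR.Cert

/-! Certificates for the smoothness of the fibres: outside the zeros of an explicit polynomial in
`t` the relative Jacobian minors generate the unit ideal, and this polynomial has no rational
zero. -/

namespace BB37.Cert

section

variable {C : Type*} [CommRing C]

/-- the discriminant, up to a constant -/
def dA (t : C) : C :=
  -218 - 864 * t - 1872 * t ^ 2 - 2592 * t ^ 3 - 2392 * t ^ 4 - 1472 * t ^ 5 + 32576 * t ^ 6 +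
  164096 * t ^ 7 + 426112 * t ^ 8 + 720896 * t ^ 9 + 851968 * t ^ 10 + 720896 * t ^ 11 + 425984
  * t ^ 12 + 163840 * t ^ 13 + 32768 * t ^ 14

/-- the discriminant in the other chart -/
def dB (t : C) : C := (t ^ 2 + t + 1) ^ 2 * dA t

variable [Algebra ℚ C]

theorem relA {t x y w : C} (h1 : y ^ 2 = x ^ 3 + x)
    (h2 : w ^ 2 = 2 * t ^ 2 * x ^ 2 + 2 * t ^ 2 + 2 * t + y + 2)
    (m3 : (3 * x ^ 2 + 1) * (2 * w) = 0) (m4 : 2 * y * (2 * w) = 0)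
    (m5 : (3 * x ^ 2 + 1) + 2 * y * (4 * t ^ 2 * x) = 0) : dA t = 0 := by
  have hw : w = 0 := by
    apply cancel 4 (by norm_num)
    have h := curve_unit (z := 4 * w) h1 (by linear_combination 2 * m3) (by linear_combination m4)
    push_cast
    exact h
  have hF : 2 * t ^ 2 * x ^ 2 + 2 * t ^ 2 + 2 * t + y + 2 = 0 := by
    rw [← h2, hw]
    ring
  have hP : (2 * t ^ 2 * x ^ 2 + 2 * t ^ 2 + 2 * t + 2) ^ 2 - x ^ 3 - x = 0 := by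
    linear_combination (2 * t ^ 2 * x ^ 2 + 2 * t ^ 2 + 2 * t + 2 - y) * hF + h1
  have hQ : 2 * (2 * t ^ 2 * x ^ 2 + 2 * t ^ 2 + 2 * t + 2) * (4 * t ^ 2 * x) - 3 * x ^ 2 - 1 =
      0 := by
    linear_combination 8 * t ^ 2 * x * hF - m5
  rw [dA]
  linear_combination
    (-54 - 108 * t - 102 * t ^ 2 - 48 * t ^ 3 + 8 * t ^ 4 + 8192 * t ^ 6 + 24576 * t ^ 7 +
    34816 * t ^ 8 + 28672 * t ^ 9 + 12288 * t ^ 10 + 2048 * t ^ 11 - 9 * x + 192 * t ^ 4 * x +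
    384 * t ^ 5 * x + 1856 * t ^ 6 * x + 1664 * t ^ 7 * x + 512 * t ^ 8 * x - 32768 * t ^ 10 *
    x - 98304 * t ^ 11 * x - 163840 * t ^ 12 * x - 163840 * t ^ 13 * x - 98304 * t ^ 14 * x -
    32768 * t ^ 15 * x + 48 * t ^ 4 * x ^ 2 + 512 * t ^ 8 * x ^ 2 + 1024 * t ^ 9 * x ^ 2 - 5632
    * t ^ 10 * x ^ 2 - 6144 * t ^ 11 * x ^ 2 - 2048 * t ^ 12 * x ^ 2) * hP + (2 - 48 * t ^ 2 -
    144 * t ^ 3 - 264 * t ^ 4 - 288 * t ^ 5 - 504 * t ^ 6 - 384 * t ^ 7 + 8096 * t ^ 8 + 32768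
    * t ^ 9 + 73728 * t ^ 10 + 106496 * t ^ 11 + 106496 * t ^ 12 + 73728 * t ^ 13 + 32768 * t ^
    14 + 8192 * t ^ 15 + 18 * x + 36 * t * x + 26 * t ^ 2 * x + 8 * t ^ 3 * x - 12 * t ^ 4 * x
    - 2688 * t ^ 6 * x - 8064 * t ^ 7 * x - 10240 * t ^ 8 * x - 7040 * t ^ 9 * x - 1152 * t ^
    10 * x + 1024 * t ^ 11 * x + 512 * t ^ 12 * x + 3 * x ^ 2 - 40 * t ^ 4 * x ^ 2 - 80 * t ^ 5
    * x ^ 2 - 552 * t ^ 6 * x ^ 2 - 512 * t ^ 7 * x ^ 2 - 160 * t ^ 8 * x ^ 2 + 8192 * t ^ 10 *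
    x ^ 2 + 24576 * t ^ 11 * x ^ 2 + 40960 * t ^ 12 * x ^ 2 + 40960 * t ^ 13 * x ^ 2 + 24576 *
    t ^ 14 * x ^ 2 + 8192 * t ^ 15 * x ^ 2 - 12 * t ^ 4 * x ^ 3 - 128 * t ^ 8 * x ^ 3 - 256 * t
    ^ 9 * x ^ 3 + 1408 * t ^ 10 * x ^ 3 + 1536 * t ^ 11 * x ^ 3 + 512 * t ^ 12 * x ^ 3) * hQ

theorem relB {t s h w : C} (h1 : h ^ 2 = s ^ 3 + s)
    (h2 : w ^ 2 = 2 * t ^ 2 + 2 * t ^ 2 * s ^ 2 + 2 * t * s ^ 2 + h + 2 * s ^ 2)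
    (m3 : (3 * s ^ 2 + 1) * (2 * w) = 0) (m4 : 2 * h * (2 * w) = 0)
    (m5 : (3 * s ^ 2 + 1) + 2 * h * (4 * t ^ 2 * s + 4 * t * s + 4 * s) = 0) : dB t = 0 := by
  have hw : w = 0 := by
    apply cancel 4 (by norm_num)
    have h := curve_unit (z := 4 * w) h1 (by linear_combination 2 * m3) (by linear_combination m4)
    push_cast
    exact h
  have hF : 2 * t ^ 2 + 2 * t ^ 2 * s ^ 2 + 2 * t * s ^ 2 + h + 2 * s ^ 2 = 0 := by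
    rw [← h2, hw]
    ring
  have hP : (2 * t ^ 2 + (2 * t ^ 2 + 2 * t + 2) * s ^ 2) ^ 2 - s ^ 3 - s = 0 := by
    linear_combination (2 * t ^ 2 + (2 * t ^ 2 + 2 * t + 2) * s ^ 2 - h) * hF + h1
  have hQ : 2 * (2 * t ^ 2 + (2 * t ^ 2 + 2 * t + 2) * s ^ 2) *
      (2 * (2 * t ^ 2 + 2 * t + 2) * s) - 3 * s ^ 2 - 1 = 0 := by
    linear_combination 4 * (2 * t ^ 2 + 2 * t + 2) * s * hF - m5
  rw [dB, dA]
  linear_combination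
    (2 + 8 * t + 6224 * t ^ 2 + 43220 * t ^ 3 + 158040 * t ^ 4 + 387416 * t ^ 5 + 696538 * t ^
    6 + 958544 * t ^ 7 + 1026056 * t ^ 8 + 854016 * t ^ 9 + 540672 * t ^ 10 + 245760 * t ^ 11 +
    67584 * t ^ 12 + 2048 * t ^ 13 - 6144 * t ^ 14 - 2048 * t ^ 15 - 969 * s - 5778 * t * s -
    18907 * t ^ 2 * s - 41618 * t ^ 3 * s - 34249 * t ^ 4 * s + 180352 * t ^ 5 * s + 1071040 *
    t ^ 6 * s + 3388032 * t ^ 7 * s + 7773632 * t ^ 8 * s + 13985408 * t ^ 9 * s + 20415424 * t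
    ^ 10 * s + 24577408 * t ^ 11 * s + 24576512 * t ^ 12 * s + 20414464 * t ^ 13 * s + 13991936
    * t ^ 14 * s + 7798784 * t ^ 15 * s + 3440640 * t ^ 16 * s + 1146880 * t ^ 17 * s + 262144
    * t ^ 18 * s + 32768 * t ^ 19 * s + 4656 * s ^ 2 + 37056 * t * s ^ 2 + 159200 * t ^ 2 * s ^
    2 + 466688 * t ^ 3 * s ^ 2 + 1026448 * t ^ 4 * s ^ 2 + 1774336 * t ^ 5 * s ^ 2 + 2469856 *
    t ^ 6 * s ^ 2 + 2800832 * t ^ 7 * s ^ 2 + 2588208 * t ^ 8 * s ^ 2 + 1929216 * t ^ 9 * s ^ 2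
    + 1125888 * t ^ 10 * s ^ 2 + 480256 * t ^ 11 * s ^ 2 + 117760 * t ^ 12 * s ^ 2 - 10240 * t
    ^ 13 * s ^ 2 - 24064 * t ^ 14 * s ^ 2 - 10240 * t ^ 15 * s ^ 2 - 2048 * t ^ 16 * s ^ 2) *
    hP + (218 + 1300 * t + 4254 * t ^ 2 + 9364 * t ^ 3 + 15146 * t ^ 4 + 18672 * t ^ 5 + 9496 *
    t ^ 6 - 44576 * t ^ 7 - 214536 * t ^ 8 - 579424 * t ^ 9 - 1146712 * t ^ 10 - 1769664 * t ^
    11 - 2187360 * t ^ 12 - 2187264 * t ^ 13 - 1769472 * t ^ 14 - 1146880 * t ^ 15 - 581632 * t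
    ^ 16 - 221184 * t ^ 17 - 57344 * t ^ 18 - 8192 * t ^ 19 - 2 * s - 8 * t * s - 2736 * t ^ 2
    * s - 18932 * t ^ 3 * s - 69564 * t ^ 4 * s - 171840 * t ^ 5 * s - 311942 * t ^ 6 * s -
    434104 * t ^ 7 * s - 470028 * t ^ 8 * s - 395136 * t ^ 9 * s - 250368 * t ^ 10 * s - 110208
    * t ^ 11 * s - 23808 * t ^ 12 * s + 6784 * t ^ 13 * s + 8064 * t ^ 14 * s + 3072 * t ^ 15 *
    s + 512 * t ^ 16 * s + 315 * s ^ 2 + 1878 * t * s ^ 2 + 6129 * t ^ 2 * s ^ 2 + 13446 * t ^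
    3 * s ^ 2 + 13371 * t ^ 4 * s ^ 2 - 39344 * t ^ 5 * s ^ 2 - 262568 * t ^ 6 * s ^ 2 - 843520
    * t ^ 7 * s ^ 2 - 1941816 * t ^ 8 * s ^ 2 - 3495984 * t ^ 9 * s ^ 2 - 5103944 * t ^ 10 * s
    ^ 2 - 6144448 * t ^ 11 * s ^ 2 - 6144160 * t ^ 12 * s ^ 2 - 5103616 * t ^ 13 * s ^ 2 -
    3497984 * t ^ 14 * s ^ 2 - 1949696 * t ^ 15 * s ^ 2 - 860160 * t ^ 16 * s ^ 2 - 286720 * t
    ^ 17 * s ^ 2 - 65536 * t ^ 18 * s ^ 2 - 8192 * t ^ 19 * s ^ 2 - 1164 * s ^ 3 - 9264 * t * s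
    ^ 3 - 39800 * t ^ 2 * s ^ 3 - 116672 * t ^ 3 * s ^ 3 - 256612 * t ^ 4 * s ^ 3 - 443584 * t
    ^ 5 * s ^ 3 - 617464 * t ^ 6 * s ^ 3 - 700208 * t ^ 7 * s ^ 3 - 647052 * t ^ 8 * s ^ 3 -
    482304 * t ^ 9 * s ^ 3 - 281472 * t ^ 10 * s ^ 3 - 120064 * t ^ 11 * s ^ 3 - 29440 * t ^ 12
    * s ^ 3 + 2560 * t ^ 13 * s ^ 3 + 6016 * t ^ 14 * s ^ 3 + 2560 * t ^ 15 * s ^ 3 + 512 * t ^
    16 * s ^ 3) * hQ

end

theorem dA_ne (t : ℚ) : dA t ≠ 0 := by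
  intro h
  have hd : (t.den : ℚ) ≠ 0 := Nat.cast_ne_zero.2 t.den_ne_zero
  have h1 : ∀ a b : ZMod 5, 
      -218 * b ^ 14 - 864 * a ^ 1 * b ^ 13 - 1872 * a ^ 2 * b ^ 12 - 2592 * a ^ 3 * b ^ 11 -
      2392 * a ^ 4 * b ^ 10 - 1472 * a ^ 5 * b ^ 9 + 32576 * a ^ 6 * b ^ 8 + 164096 * a ^ 7 * b
      ^ 7 + 426112 * a ^ 8 * b ^ 6 + 720896 * a ^ 9 * b ^ 5 + 851968 * a ^ 10 * b ^ 4 + 720896
      * a ^ 11 * b ^ 3 + 425984 * a ^ 12 * b ^ 2 + 163840 * a ^ 13 * b ^ 1 + 32768 * a ^ 14 = 0 → a = 0 ∧ b = 0 := by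
    decide
  have h2 : (
      -218 * (t.den : ℤ) ^ 14 - 864 * t.num ^ 1 * (t.den : ℤ) ^ 13 - 1872 * t.num ^ 2 * (t.den
      : ℤ) ^ 12 - 2592 * t.num ^ 3 * (t.den : ℤ) ^ 11 - 2392 * t.num ^ 4 * (t.den : ℤ) ^ 10 -
      1472 * t.num ^ 5 * (t.den : ℤ) ^ 9 + 32576 * t.num ^ 6 * (t.den : ℤ) ^ 8 + 164096 * t.num
      ^ 7 * (t.den : ℤ) ^ 7 + 426112 * t.num ^ 8 * (t.den : ℤ) ^ 6 + 720896 * t.num ^ 9 *
      (t.den : ℤ) ^ 5 + 851968 * t.num ^ 10 * (t.den : ℤ) ^ 4 + 720896 * t.num ^ 11 * (t.den :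
      ℤ) ^ 3 + 425984 * t.num ^ 12 * (t.den : ℤ) ^ 2 + 163840 * t.num ^ 13 * (t.den : ℤ) ^ 1 +
      32768 * t.num ^ 14 : ℤ) = 0 := by
    have h3 : (t.num : ℚ) = t * t.den := by
      rw [Rat.mul_den_eq_num]
    have h4 : ((
        -218 * (t.den : ℤ) ^ 14 - 864 * t.num ^ 1 * (t.den : ℤ) ^ 13 - 1872 * t.num ^ 2 *
        (t.den : ℤ) ^ 12 - 2592 * t.num ^ 3 * (t.den : ℤ) ^ 11 - 2392 * t.num ^ 4 * (t.den : ℤ)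
        ^ 10 - 1472 * t.num ^ 5 * (t.den : ℤ) ^ 9 + 32576 * t.num ^ 6 * (t.den : ℤ) ^ 8 +
        164096 * t.num ^ 7 * (t.den : ℤ) ^ 7 + 426112 * t.num ^ 8 * (t.den : ℤ) ^ 6 + 720896 *
        t.num ^ 9 * (t.den : ℤ) ^ 5 + 851968 * t.num ^ 10 * (t.den : ℤ) ^ 4 + 720896 * t.num ^
        11 * (t.den : ℤ) ^ 3 + 425984 * t.num ^ 12 * (t.den : ℤ) ^ 2 + 163840 * t.num ^ 13 *
        (t.den : ℤ) ^ 1 + 32768 * t.num ^ 14 : ℤ) : ℚ) = t.den ^ 14 * dA t := by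
      push_cast
      rw [h3, dA]
      ring
    rw [h, mul_zero] at h4
    exact_mod_cast h4
  have h5 := congrArg (Int.cast : ℤ → ZMod 5) h2
  push_cast at h5
  obtain ⟨h6, h7⟩ := h1 (t.num : ZMod 5) (t.den : ZMod 5) h5
  rw [ZMod.intCast_zmod_eq_zero_iff_dvd] at h6
  rw [ZMod.natCast_eq_zero_iff] at h7
  have h8 := t.reduced
  have h9 : 5 ∣ t.num.natAbs := Int.natCast_dvd.1 h6
  have h10 := Nat.dvd_gcd h9 h7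
  rw [Nat.Coprime] at h8
  rw [h8] at h10
  norm_num at h10

theorem dB_ne (t : ℚ) : dB t ≠ 0 := by
  rw [dB]
  have h : 0 < t ^ 2 + t + 1 := by nlinarith [sq_nonneg (t + 1 / 2)]
  exact mul_ne_zero (pow_ne_zero _ h.ne') (dA_ne t)

end BB37.Cert
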