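import Pool.Agent.Lib.MP_bb37eb_nt.AR.Jac
import Pool.Agent.Lib.MP_bb37eb_nt.AR.CertRel

/-! The chart rings of the surface and of its fibres, and their smoothness. -/

namespace BB37

open MvPolynomial

section

variable (k : Type*) [CommRing k]

/-- chart A: variables `t, x, y, w` -/
noncomputable def gA : Fin 2 → MvPolynomial (Fin 4) k :=
  ![X 2 ^ 2 - (X 1 ^ 3 + X 1),
    X 3 ^ 2 - (2 * X 0 ^ 2 * X 1 ^ 2 + 2 * X 0 ^ 2 + 2 * X 0 + X 2 + 2)]

/-- chart B: variables `t, s, h, w`, `s = 1/x`, `h = y/x^2` -/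
noncomputable def gB : Fin 2 → MvPolynomial (Fin 4) k :=
  ![X 2 ^ 2 - (X 1 ^ 3 + X 1),
    X 3 ^ 2 - (2 * X 0 ^ 2 + 2 * X 0 ^ 2 * X 1 ^ 2 + 2 * X 0 * X 1 ^ 2 + X 2 + 2 * X 1 ^ 2)]

/-- chart C: variables `r, x, y, w`, `r = 1/t` -/
noncomputable def gC : Fin 2 → MvPolynomial (Fin 4) k :=
  ![X 2 ^ 2 - (X 1 ^ 3 + X 1),
    X 3 ^ 2 - (2 * X 1 ^ 2 + 2 + 2 * X 0 + X 0 ^ 2 * (X 2 + 2))]

/-- chart D: variables `r, s, h, w` -/
noncomputable def gD : Fin 2 → MvPolynomial (Fin 4) k :=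
  ![X 2 ^ 2 - (X 1 ^ 3 + X 1),
    X 3 ^ 2 - (2 + 2 * X 1 ^ 2 + 2 * X 0 * X 1 ^ 2 + X 0 ^ 2 * (X 2 + 2 * X 1 ^ 2))]

/-- fibre of chart A at `t`: variables `x, y, w` -/
noncomputable def fA (t : k) : Fin 2 → MvPolynomial (Fin 3) k :=
  ![X 1 ^ 2 - (X 0 ^ 3 + X 0),
    X 2 ^ 2 - (2 * C t ^ 2 * X 0 ^ 2 + 2 * C t ^ 2 + 2 * C t + X 1 + 2)]

/-- fibre of chart B at `t`: variables `s, h, w` -/
noncomputable def fB (t : k) : Fin 2 → MvPolynomial (Fin 3) k :=
  ![X 1 ^ 2 - (X 0 ^ 3 + X 0),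
    X 2 ^ 2 - (2 * C t ^ 2 + 2 * C t ^ 2 * X 0 ^ 2 + 2 * C t * X 0 ^ 2 + X 1 + 2 * X 0 ^ 2)]

variable [Algebra ℚ k]

omit [Algebra ℚ k] in
theorem pderiv_two' {n : ℕ} (i : Fin n) : pderiv i (2 : MvPolynomial (Fin n) k) = 0 := by
  have h : (2 : MvPolynomial (Fin n) k) = C 2 := (map_ofNat C 2).symm
  rw [h, pderiv_C]

theorem Cert.map_dA {R S : Type*} [CommRing R] [CommRing S] (f : R →+* S) (t : R) :
    Cert.dA (f t) = f (Cert.dA t) := by
  rw [Cert.dA, Cert.dA]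
  simp only [map_add, map_sub, map_mul, map_neg, map_pow, map_ofNat]

theorem Cert.map_dB {R S : Type*} [CommRing R] [CommRing S] (f : R →+* S) (t : R) :
    Cert.dB (f t) = f (Cert.dB t) := by
  rw [Cert.dB, Cert.dB, map_mul, Cert.map_dA]
  simp

theorem mk_two {R : Type*} [CommRing R] (I : Ideal R) : Ideal.Quotient.mk I 2 = 2 :=
  map_ofNat _ 2

theorem mk_three {R : Type*} [CommRing R] (I : Ideal R) : Ideal.Quotient.mk I 3 = 3 :=
  map_ofNat _ 3

theorem smooth_A : Algebra.Smooth k (MvPolynomial (Fin 4) k ⧸ Ideal.span (Set.range (gA k))) := by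
  apply smooth_of_minors
  intro I hg hm
  rw [← Ideal.Quotient.subsingleton_iff, ← subsingleton_iff_zero_eq_one, eq_comm]
  have h1 := Ideal.Quotient.eq_zero_iff_mem.2 (hg 0)
  have h2 := Ideal.Quotient.eq_zero_iff_mem.2 (hg 1)
  have h12 := Ideal.Quotient.eq_zero_iff_mem.2 (hm 1 2)
  have h01 := Ideal.Quotient.eq_zero_iff_mem.2 (hm 0 1)
  have h02 := Ideal.Quotient.eq_zero_iff_mem.2 (hm 0 2)
  have h13 := Ideal.Quotient.eq_zero_iff_mem.2 (hm 1 3)
  have h23 := Ideal.Quotient.eq_zero_iff_mem.2 (hm 2 3)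
  simp [gA, pderiv_X, pderiv_two', mk_two, mk_three] at h1 h2 h12 h01 h02 h13 h23
  apply Cert.smoothA (C := MvPolynomial (Fin 4) k ⧸ I) (h1 := sub_eq_zero.1 h1)
    (h2 := sub_eq_zero.1 h2)
  · linear_combination h01
  · linear_combination -h02
  · linear_combination -h13
  · linear_combination h23
  · linear_combination h12

theorem smooth_B : Algebra.Smooth k (MvPolynomial (Fin 4) k ⧸ Ideal.span (Set.range (gB k))) := by
  apply smooth_of_minors
  intro I hg hm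
  rw [← Ideal.Quotient.subsingleton_iff, ← subsingleton_iff_zero_eq_one, eq_comm]
  have h1 := Ideal.Quotient.eq_zero_iff_mem.2 (hg 0)
  have h2 := Ideal.Quotient.eq_zero_iff_mem.2 (hg 1)
  have h12 := Ideal.Quotient.eq_zero_iff_mem.2 (hm 1 2)
  have h01 := Ideal.Quotient.eq_zero_iff_mem.2 (hm 0 1)
  have h02 := Ideal.Quotient.eq_zero_iff_mem.2 (hm 0 2)
  have h13 := Ideal.Quotient.eq_zero_iff_mem.2 (hm 1 3)
  have h23 := Ideal.Quotient.eq_zero_iff_mem.2 (hm 2 3)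
  simp [gB, pderiv_X, pderiv_two', mk_two, mk_three] at h1 h2 h12 h01 h02 h13 h23
  apply Cert.smoothB (C := MvPolynomial (Fin 4) k ⧸ I) (h1 := sub_eq_zero.1 h1)
    (h2 := sub_eq_zero.1 h2)
  · linear_combination h01
  · linear_combination -h02
  · linear_combination -h13
  · linear_combination h23
  · linear_combination h12

theorem smooth_C : Algebra.Smooth k (MvPolynomial (Fin 4) k ⧸ Ideal.span (Set.range (gC k))) := by
  apply smooth_of_minors
  intro I hg hm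
  rw [← Ideal.Quotient.subsingleton_iff, ← subsingleton_iff_zero_eq_one, eq_comm]
  have h1 := Ideal.Quotient.eq_zero_iff_mem.2 (hg 0)
  have h2 := Ideal.Quotient.eq_zero_iff_mem.2 (hg 1)
  have h12 := Ideal.Quotient.eq_zero_iff_mem.2 (hm 1 2)
  have h01 := Ideal.Quotient.eq_zero_iff_mem.2 (hm 0 1)
  have h02 := Ideal.Quotient.eq_zero_iff_mem.2 (hm 0 2)
  have h13 := Ideal.Quotient.eq_zero_iff_mem.2 (hm 1 3)
  have h23 := Ideal.Quotient.eq_zero_iff_mem.2 (hm 2 3)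
  simp [gC, pderiv_X, pderiv_two', mk_two, mk_three] at h1 h2 h12 h01 h02 h13 h23
  apply Cert.smoothC (C := MvPolynomial (Fin 4) k ⧸ I) (h1 := sub_eq_zero.1 h1)
    (h2 := sub_eq_zero.1 h2)
  · linear_combination h01
  · linear_combination -h02
  · linear_combination -h13
  · linear_combination h23
  · linear_combination h12

theorem smooth_D : Algebra.Smooth k (MvPolynomial (Fin 4) k ⧸ Ideal.span (Set.range (gD k))) := by
  apply smooth_of_minors
  intro I hg hm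
  rw [← Ideal.Quotient.subsingleton_iff, ← subsingleton_iff_zero_eq_one, eq_comm]
  have h1 := Ideal.Quotient.eq_zero_iff_mem.2 (hg 0)
  have h2 := Ideal.Quotient.eq_zero_iff_mem.2 (hg 1)
  have h12 := Ideal.Quotient.eq_zero_iff_mem.2 (hm 1 2)
  have h01 := Ideal.Quotient.eq_zero_iff_mem.2 (hm 0 1)
  have h02 := Ideal.Quotient.eq_zero_iff_mem.2 (hm 0 2)
  have h13 := Ideal.Quotient.eq_zero_iff_mem.2 (hm 1 3)
  have h23 := Ideal.Quotient.eq_zero_iff_mem.2 (hm 2 3)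
  simp [gD, pderiv_X, pderiv_two', mk_two, mk_three] at h1 h2 h12 h01 h02 h13 h23
  apply Cert.smoothD (C := MvPolynomial (Fin 4) k ⧸ I) (h1 := sub_eq_zero.1 h1)
    (h2 := sub_eq_zero.1 h2)
  · linear_combination h01
  · linear_combination -h02
  · linear_combination -h13
  · linear_combination h23
  · linear_combination h12

theorem smooth_fA (t : k) (ht : IsUnit (Cert.dA t)) :
    Algebra.Smooth k (MvPolynomial (Fin 3) k ⧸ Ideal.span (Set.range (fA k t))) := by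
  apply smooth_of_minors
  intro I hg hm
  rw [← Ideal.Quotient.subsingleton_iff, ← subsingleton_iff_zero_eq_one, eq_comm]
  have h1 := Ideal.Quotient.eq_zero_iff_mem.2 (hg 0)
  have h2 := Ideal.Quotient.eq_zero_iff_mem.2 (hg 1)
  have h12 := Ideal.Quotient.eq_zero_iff_mem.2 (hm 0 1)
  have h13 := Ideal.Quotient.eq_zero_iff_mem.2 (hm 0 2)
  have h23 := Ideal.Quotient.eq_zero_iff_mem.2 (hm 1 2)
  simp [fA, pderiv_X, pderiv_two', mk_two, mk_three] at h1 h2 h12 h13 h23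
  have h := Cert.relA (C := MvPolynomial (Fin 3) k ⧸ I) (h1 := sub_eq_zero.1 h1)
    (h2 := sub_eq_zero.1 h2) (by linear_combination -h13) (by linear_combination h23)
    (by linear_combination h12)
  have e : Cert.dA (Ideal.Quotient.mk I (C t)) = Ideal.Quotient.mk I (C (Cert.dA t)) :=
    Cert.map_dA ((Ideal.Quotient.mk I).comp C) t
  rw [e] at h
  have hu : IsUnit (Ideal.Quotient.mk I (C (Cert.dA t))) := (ht.map C).map _
  rw [h] at hu
  exact (isUnit_zero_iff.1 hu).symm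

theorem smooth_fB (t : k) (ht : IsUnit (Cert.dB t)) :
    Algebra.Smooth k (MvPolynomial (Fin 3) k ⧸ Ideal.span (Set.range (fB k t))) := by
  apply smooth_of_minors
  intro I hg hm
  rw [← Ideal.Quotient.subsingleton_iff, ← subsingleton_iff_zero_eq_one, eq_comm]
  have h1 := Ideal.Quotient.eq_zero_iff_mem.2 (hg 0)
  have h2 := Ideal.Quotient.eq_zero_iff_mem.2 (hg 1)
  have h12 := Ideal.Quotient.eq_zero_iff_mem.2 (hm 0 1)
  have h13 := Ideal.Quotient.eq_zero_iff_mem.2 (hm 0 2)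
  have h23 := Ideal.Quotient.eq_zero_iff_mem.2 (hm 1 2)
  simp [fB, pderiv_X, pderiv_two', mk_two, mk_three] at h1 h2 h12 h13 h23
  have h := Cert.relB (C := MvPolynomial (Fin 3) k ⧸ I) (h1 := sub_eq_zero.1 h1)
    (h2 := sub_eq_zero.1 h2) (by linear_combination -h13) (by linear_combination h23)
    (by linear_combination h12)
  have e : Cert.dB (Ideal.Quotient.mk I (C t)) = Ideal.Quotient.mk I (C (Cert.dB t)) :=
    Cert.map_dB ((Ideal.Quotient.mk I).comp C) t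
  rw [e] at h
  have hu : IsUnit (Ideal.Quotient.mk I (C (Cert.dB t))) := (ht.map C).map _
  rw [h] at hu
  exact (isUnit_zero_iff.1 hu).symm

end

end BB37
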