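import Pool.Agent.Lib.MP_bb37eb_nt.AR.Prime
import Pool.Agent.Lib.MP_bb37eb_nt.AR.Rings

/-! The fibre rings of the four charts are integral domains, over every domain of
characteristic zero. -/

namespace BB37

open MvPolynomial

section

variable (k : Type*) [CommRing k]

/-- fibre of chart C at `r = 1/t`: variables `x, y, w` -/
noncomputable def fC (r : k) : Fin 2 → MvPolynomial (Fin 3) k :=
  ![X 1 ^ 2 - (X 0 ^ 3 + X 0),
    X 2 ^ 2 - (2 * X 0 ^ 2 + 2 + 2 * C r + C r ^ 2 * (X 1 + 2))]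

/-- fibre of chart D at `r`: variables `s, h, w` -/
noncomputable def fD (r : k) : Fin 2 → MvPolynomial (Fin 3) k :=
  ![X 1 ^ 2 - (X 0 ^ 3 + X 0),
    X 2 ^ 2 - (2 + 2 * X 0 ^ 2 + 2 * C r * X 0 ^ 2 + C r ^ 2 * (X 1 + 2 * X 0 ^ 2))]

theorem natDegree_quad (a b : k) :
    (Polynomial.C a * Polynomial.X ^ 2 + Polynomial.C b).natDegree ≤ 2 := by
  compute_degree

theorem fA_eq (t : k) : fA k t =
    gg (Polynomial.C (2 * t ^ 2) * Polynomial.X ^ 2 + Polynomial.C (2 * t ^ 2 + 2 * t + 2)) 1 := by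
  rw [fA, gg]
  congr 3
  simp only [map_add, map_mul, map_pow, Polynomial.aeval_X, Polynomial.aeval_C,
    MvPolynomial.algebraMap_eq, map_one, map_ofNat]
  ring

theorem fB_eq (t : k) : fB k t =
    gg (Polynomial.C (2 * t ^ 2 + 2 * t + 2) * Polynomial.X ^ 2 + Polynomial.C (2 * t ^ 2)) 1 := by
  rw [fB, gg]
  congr 3
  simp only [map_add, map_mul, map_pow, Polynomial.aeval_X, Polynomial.aeval_C,
    MvPolynomial.algebraMap_eq, map_one, map_ofNat]
  ring

theorem fC_eq (r : k) : fC k r =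
    gg (Polynomial.C 2 * Polynomial.X ^ 2 + Polynomial.C (2 * r ^ 2 + 2 * r + 2)) (r ^ 2) := by
  rw [fC, gg]
  congr 3
  simp only [map_add, map_mul, map_pow, Polynomial.aeval_X, Polynomial.aeval_C,
    MvPolynomial.algebraMap_eq, map_ofNat]
  ring

theorem fD_eq (r : k) : fD k r =
    gg (Polynomial.C (2 * r ^ 2 + 2 * r + 2) * Polynomial.X ^ 2 + Polynomial.C 2) (r ^ 2) := by
  rw [fD, gg]
  congr 3
  simp only [map_add, map_mul, map_pow, Polynomial.aeval_X, Polynomial.aeval_C,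
    MvPolynomial.algebraMap_eq, map_ofNat]
  ring

variable [IsDomain k] [CharZero k]

theorem prime_fA (t : k) : (Ideal.span (Set.range (fA k t))).IsPrime := by
  rw [fA_eq]
  exact isPrime_gg _ _ (Or.inl ⟨one_ne_zero, natDegree_quad k _ _⟩)

theorem prime_fB (t : k) : (Ideal.span (Set.range (fB k t))).IsPrime := by
  rw [fB_eq]
  exact isPrime_gg _ _ (Or.inl ⟨one_ne_zero, natDegree_quad k _ _⟩)

theorem prime_fC (r : k) : (Ideal.span (Set.range (fC k r))).IsPrime := by
  rw [fC_eq]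
  apply isPrime_gg
  by_cases hr : r = 0
  · right
    rw [hr]
    refine ⟨by ring, ?_⟩
    have h2 : (Polynomial.C 2 : Polynomial k) = 2 := map_ofNat _ 2
    simp [h2]
  · exact Or.inl ⟨pow_ne_zero _ hr, natDegree_quad k _ _⟩

theorem prime_fD (r : k) : (Ideal.span (Set.range (fD k r))).IsPrime := by
  rw [fD_eq]
  apply isPrime_gg
  by_cases hr : r = 0
  · right
    rw [hr]
    refine ⟨by ring, ?_⟩
    have h2 : (Polynomial.C 2 : Polynomial k) = 2 := map_ofNat _ 2
    simp [h2]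
  · exact Or.inl ⟨pow_ne_zero _ hr, natDegree_quad k _ _⟩

end

end BB37
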