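import Mathlib

/-! The Jacobian criterion: smoothness of a complete intersection from the minors. -/

namespace BB37

open MvPolynomial TensorProduct

section

variable {k : Type*} [CommRing k] {ι κ : Type*} [Fintype ι] [Fintype κ] [DecidableEq κ]

/-- Jacobian criterion with an explicit right inverse of the Jacobian matrix -/
theorem formallySmooth_of_matrix (g : κ → MvPolynomial ι k)
    (K : ι → κ → MvPolynomial ι k)
    (h : ∀ a b, ∑ i, pderiv i (g a) * K i b - (if a = b then 1 else 0) ∈
      Ideal.span (Set.range g)) :
    Algebra.FormallySmooth k (MvPolynomial ι k ⧸ Ideal.span (Set.range g)) := by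
  set J : Ideal (MvPolynomial ι k) := Ideal.span (Set.range g) with hJ
  set A := MvPolynomial ι k ⧸ J with hA
  have hsurj : Function.Surjective (algebraMap (MvPolynomial ι k) A) :=
    Ideal.Quotient.mk_surjective
  rw [Algebra.FormallySmooth.iff_split_injection hsurj]
  set I : Ideal (MvPolynomial ι k) := RingHom.ker (algebraMap (MvPolynomial ι k) A) with hI
  have hIJ : I = J := Ideal.mk_ker
  have hgI : ∀ a, g a ∈ I := fun a => by
    rw [hIJ]
    exact Ideal.subset_span ⟨a, rfl⟩
  let γ : κ → I.Cotangent := fun a => I.toCotangent ⟨g a, hgI a⟩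
  have hkill : ∀ (p : MvPolynomial ι k) (z : I.Cotangent), p ∈ I → p • z = 0 := by
    intro p z hp
    obtain ⟨q, rfl⟩ := I.toCotangent_surjective z
    rw [← map_smul, Ideal.toCotangent_eq_zero]
    change p * (q : MvPolynomial ι k) ∈ I ^ 2
    rw [pow_two]
    exact Ideal.mul_mem_mul hp q.2
  let D : Derivation k (MvPolynomial ι k) I.Cotangent :=
    mkDerivation k fun i => ∑ b, K i b • γ b
  have hDp : ∀ p, D p = ∑ i, pderiv i p • ∑ b, K i b • γ b := by
    classical
    have hX : ∀ j, D (X j) = ∑ b, K j b • γ b := fun j => mkDerivation_X _ _ _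
    intro p
    induction p using MvPolynomial.induction_on with
    | C a =>
      rw [derivation_C]
      symm
      apply Finset.sum_eq_zero
      intro i _
      rw [pderiv_C, zero_smul]
    | add p q hp hq =>
      rw [map_add, hp, hq, ← Finset.sum_add_distrib]
      refine Finset.sum_congr rfl fun i _ => ?_
      rw [map_add, add_smul]
    | mul_X p j hp =>
      rw [Derivation.leibniz, hp, hX]
      have e : ∀ i : ι, pderiv i (p * X j) • ∑ b, K i b • γ b =
          (if j = i then p • ∑ b, K i b • γ b else 0) +
            (X j : MvPolynomial ι k) • (pderiv i p • ∑ b, K i b • γ b) := by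
        intro i
        rw [pderiv_mul, add_smul, mul_comm (pderiv i p), mul_smul, add_comm]
        congr 1
        split_ifs with hij
        · subst hij
          rw [pderiv_X_self, mul_one]
        · rw [pderiv_X_of_ne hij, mul_zero, zero_smul]
      rw [Finset.sum_congr rfl fun i _ => e i, Finset.sum_add_distrib,
        Finset.sum_ite_eq Finset.univ j, if_pos (Finset.mem_univ j), ← Finset.smul_sum]
  have hD : ∀ a, D (g a) = γ a := by
    intro a
    rw [hDp]
    have e1 : ∑ i, pderiv i (g a) • ∑ b, K i b • γ b =
        ∑ b, (∑ i, pderiv i (g a) * K i b) • γ b := by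
      simp only [Finset.smul_sum, Finset.sum_smul, smul_smul]
      exact Finset.sum_comm
    rw [e1]
    have e2 : ∀ b, (∑ i, pderiv i (g a) * K i b) • γ b = (if a = b then γ b else 0) := by
      intro b
      have h1 := hkill _ (γ b) (hIJ ▸ h a b)
      rw [sub_smul, sub_eq_zero] at h1
      rw [h1]
      split_ifs <;> simp
    rw [Finset.sum_congr rfl fun b _ => e2 b]
    simp
  let l₀ : Ω[MvPolynomial ι k⁄k] →ₗ[MvPolynomial ι k] I.Cotangent :=
    D.liftKaehlerDifferential
  let l₁ : A →ₗ[MvPolynomial ι k] (Ω[MvPolynomial ι k⁄k] →ₗ[MvPolynomial ι k] I.Cotangent) :=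
    Submodule.liftQ J (LinearMap.toSpanSingleton (MvPolynomial ι k) _ l₀) (by
      intro q hq
      rw [LinearMap.mem_ker, LinearMap.toSpanSingleton_apply]
      refine LinearMap.ext fun ω => ?_
      rw [LinearMap.smul_apply]
      exact hkill q _ (hIJ ▸ hq))
  refine ⟨TensorProduct.lift l₁, ?_⟩
  ext z
  obtain ⟨q, rfl⟩ := I.toCotangent_surjective z
  have e1 : (TensorProduct.lift l₁ ∘ₗ KaehlerDifferential.kerCotangentToTensor k
      (MvPolynomial ι k) A) (I.toCotangent q) = D q := by
    rw [LinearMap.comp_apply, KaehlerDifferential.kerCotangentToTensor_toCotangent,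
      TensorProduct.lift.tmul]
    have e2 : l₁ 1 = l₀ := by
      have : l₁ (Submodule.Quotient.mk 1) = l₀ := by
        rw [Submodule.liftQ_apply, LinearMap.toSpanSingleton_apply, one_smul]
      exact this
    rw [e2]
    exact D.liftKaehlerDifferential_comp_D _
  rw [e1, LinearMap.id_apply]
  clear e1
  obtain ⟨q, hq⟩ := q
  have hq' : q ∈ J := hIJ ▸ hq
  revert hq
  rw [hJ] at hq'
  induction hq' using Submodule.span_induction with
  | mem x hx =>
    intro hq
    obtain ⟨a, rfl⟩ := hx
    exact hD a
  | zero =>
    intro hq
    rw [map_zero]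
    symm
    rw [Ideal.toCotangent_eq_zero]
    exact Ideal.zero_mem _
  | add x y hx hy ihx ihy =>
    intro hq
    have hx' : x ∈ I := by rw [hIJ]; exact hx
    have hy' : y ∈ I := by rw [hIJ]; exact hy
    rw [map_add, ihx hx', ihy hy', ← map_add]
    rfl
  | smul r x hx ihx =>
    intro hq
    have hx' : x ∈ I := by rw [hIJ]; exact hx
    have e3 : D (r * x) = r • I.toCotangent ⟨x, hx'⟩ := by
      rw [Derivation.leibniz, ihx hx', hkill x _ hx', add_zero]
    rw [← map_smul] at e3
    exact e3

/-- Jacobian criterion for two equations: the minors generate the unit ideal -/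
theorem smooth_of_minors {k : Type*} [CommRing k] {ι : Type*} [Fintype ι]
    (g : Fin 2 → MvPolynomial ι k)
    (h : ∀ I : Ideal (MvPolynomial ι k), (∀ a, g a ∈ I) →
      (∀ i j, pderiv i (g 0) * pderiv j (g 1) - pderiv j (g 0) * pderiv i (g 1) ∈ I) → I = ⊤) :
    Algebra.Smooth k (MvPolynomial ι k ⧸ Ideal.span (Set.range g)) := by
  classical
  set J : Ideal (MvPolynomial ι k) := Ideal.span (Set.range g) with hJ
  -- the ideal of the `m` such that `m` times the identity matrix factors through the Jacobian
  let S : Ideal (MvPolynomial ι k) :=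
    { carrier := {m | ∃ K : ι → Fin 2 → MvPolynomial ι k,
        ∀ a b, ∑ i, pderiv i (g a) * K i b - (if a = b then m else 0) ∈ J}
      add_mem' := by
        rintro m m' ⟨K, hK⟩ ⟨K', hK'⟩
        refine ⟨fun i b => K i b + K' i b, fun a b => ?_⟩
        have e : ∑ i, pderiv i (g a) * (K i b + K' i b) - (if a = b then m + m' else 0) =
            (∑ i, pderiv i (g a) * K i b - (if a = b then m else 0)) +
            (∑ i, pderiv i (g a) * K' i b - (if a = b then m' else 0)) := by
          simp only [mul_add, Finset.sum_add_distrib]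
          split_ifs <;> ring
        rw [e]
        exact J.add_mem (hK a b) (hK' a b)
      zero_mem' := ⟨fun _ _ => 0, fun a b => by simp⟩
      smul_mem' := by
        rintro c m ⟨K, hK⟩
        refine ⟨fun i b => c * K i b, fun a b => ?_⟩
        have e : ∑ i, pderiv i (g a) * (c * K i b) - (if a = b then c • m else 0) =
            c * (∑ i, pderiv i (g a) * K i b - (if a = b then m else 0)) := by
          rw [mul_sub, Finset.mul_sum]
          congr 1
          · refine Finset.sum_congr rfl fun i _ => ?_
            ring
          · split_ifs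
            · rfl
            · rw [mul_zero]
        rw [e]
        exact J.mul_mem_left _ (hK a b) }
  have hS : S = ⊤ := by
    apply h
    · intro a
      refine ⟨fun _ _ => 0, fun a' b => ?_⟩
      have hg : g a ∈ J := Ideal.subset_span ⟨a, rfl⟩
      simp only [mul_zero, Finset.sum_const_zero, zero_sub]
      split_ifs
      · exact J.neg_mem hg
      · rw [neg_zero]
        exact J.zero_mem
    · intro i j
      refine ⟨fun l b => if b = 0 then
          (if l = i then pderiv j (g 1) else 0) - (if l = j then pderiv i (g 1) else 0) else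
          (if l = j then pderiv i (g 0) else 0) - (if l = i then pderiv j (g 0) else 0),
        fun a b => ?_⟩
      convert J.zero_mem
      have key : ∀ (i j : ι) (a : Fin 2) (u v : MvPolynomial ι k),
          ∑ l, pderiv l (g a) * ((if l = i then u else 0) - (if l = j then v else 0)) =
          pderiv i (g a) * u - pderiv j (g a) * v := by
        intro i j a u v
        simp only [mul_sub, Finset.sum_sub_distrib, mul_ite, mul_zero]
        rw [Finset.sum_ite_eq' Finset.univ i, Finset.sum_ite_eq' Finset.univ j,
          if_pos (Finset.mem_univ _), if_pos (Finset.mem_univ _)]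
      fin_cases a <;> fin_cases b
      · simp only [Fin.zero_eta, Fin.isValue, ↓reduceIte, key]
        ring
      · simp only [Fin.zero_eta, Fin.isValue, Fin.mk_one, one_ne_zero, ↓reduceIte, key,
          zero_ne_one]
        ring
      · simp only [Fin.zero_eta, Fin.isValue, Fin.mk_one, one_ne_zero, ↓reduceIte, key]
        ring
      · simp only [Fin.isValue, Fin.mk_one, one_ne_zero, ↓reduceIte, key]
        ring
  have h1 : (1 : MvPolynomial ι k) ∈ S := by
    rw [hS]
    trivial
  obtain ⟨K, hK⟩ := h1
  have hf := formallySmooth_of_matrix g K hK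
  have hfp : Algebra.FinitePresentation k (MvPolynomial ι k ⧸ J) := by
    apply Algebra.FinitePresentation.quotient
    exact ⟨Finset.univ.image g, by rw [Finset.coe_image, Finset.coe_univ, Set.image_univ]⟩
  exact ⟨hf, hfp⟩

end

end BB37
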