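import Mathlib

/-! Non-squares in the function field of the curve `y^2 = x^3 + x`. -/

namespace BB37

open Polynomial

section

variable {K : Type*} [Field K]

theorem natDegree_f : (X ^ 3 + X : K[X]).natDegree = 3 := by
  compute_degree!

theorem f_ne : (X ^ 3 + X : K[X]) ≠ 0 := by
  intro h
  have := natDegree_f (K := K)
  rw [h, natDegree_zero] at this
  omega

/-- `x^3 + x` is not a square in the field of rational functions -/
theorem f_not_sq (l : FractionRing K[X]) :
    l ^ 2 ≠ algebraMap K[X] (FractionRing K[X]) (X ^ 3 + X) := by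
  intro h
  obtain ⟨p, q, hq0, hpq⟩ := IsFractionRing.div_surjective (A := K[X]) l
  rw [← hpq] at h
  have hq : (q : K[X]) ≠ 0 := nonZeroDivisors.ne_zero hq0
  have hq' : algebraMap K[X] (FractionRing K[X]) q ≠ 0 := by
    rwa [Ne, IsFractionRing.to_map_eq_zero_iff]
  rw [div_pow, div_eq_iff (pow_ne_zero _ hq'), ← map_pow, ← map_pow, ← map_mul] at h
  have h1 := IsFractionRing.injective K[X] (FractionRing K[X]) h
  have h2 := congrArg natDegree h1
  rw [natDegree_pow, natDegree_mul f_ne (pow_ne_zero _ hq), natDegree_f, natDegree_pow] at h2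
  omega

theorem x_not_two_sq {l : FractionRing K[X]} (hl : l ≠ 0) (c : K) (hc : c ≠ 0) :
    l ^ 2 * algebraMap K[X] (FractionRing K[X]) X ≠
      algebraMap K[X] (FractionRing K[X]) (C c) := by
  intro h
  obtain ⟨p, q, hq0, hpq⟩ := IsFractionRing.div_surjective (A := K[X]) l
  rw [← hpq] at h hl
  have hq : (q : K[X]) ≠ 0 := nonZeroDivisors.ne_zero hq0
  have hq' : algebraMap K[X] (FractionRing K[X]) q ≠ 0 := by
    rwa [Ne, IsFractionRing.to_map_eq_zero_iff]
  have hp : p ≠ 0 := by
    rintro rfl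
    exact hl (by rw [map_zero, zero_div])
  rw [div_pow, div_mul_eq_mul_div, div_eq_iff (pow_ne_zero _ hq'), ← map_pow, ← map_pow,
    ← map_mul, ← map_mul] at h
  have h1 := IsFractionRing.injective K[X] (FractionRing K[X]) h
  have h2 := congrArg natDegree h1
  rw [natDegree_mul (pow_ne_zero _ hp) X_ne_zero, natDegree_mul (C_ne_zero.2 hc)
    (pow_ne_zero _ hq), natDegree_pow, natDegree_pow, natDegree_C, natDegree_X] at h2
  omega

variable [CharZero K]

theorem squarefree_f : Squarefree (X ^ 3 + X : K[X]) := by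
  apply Separable.squarefree
  rw [separable_def']
  refine ⟨-(C (9 / 2) * X), 1 + C (3 / 2) * X ^ 2, ?_⟩
  have h1 : (C (9 / 2) : K[X]) = C 3 * C (3 / 2) := by
    rw [← C_mul]
    norm_num
  have h2 : (C 3 : K[X]) = 3 := map_ofNat C 3
  have h3 : (C (3 / 2) : K[X]) * 2 = 3 := by
    have : (2 : K[X]) = C 2 := (map_ofNat C 2).symm
    rw [this, ← C_mul, ← h2]
    norm_num
  simp only [derivative_add, derivative_X_pow, derivative_X]
  rw [h1, h2]
  simp only [Nat.cast_ofNat, map_ofNat]
  linear_combination (-X ^ 2) * h3 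

/-- `alpha(x) + beta y` is not a square in the function field: case `beta ≠ 0` -/
theorem not_sq_one {α : K[X]} {β : K} (hβ : β ≠ 0) (hα : α.natDegree ≤ 2)
    (a b : FractionRing K[X])
    (h1 : a ^ 2 + b ^ 2 * algebraMap K[X] (FractionRing K[X]) (X ^ 3 + X) =
      algebraMap K[X] (FractionRing K[X]) α)
    (h2 : 2 * a * b = algebraMap K[X] (FractionRing K[X]) (C β)) : False := by
  set i := algebraMap K[X] (FractionRing K[X]) with hi
  have hi0 : Function.Injective i := IsFractionRing.injective K[X] (FractionRing K[X])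
  have hβ' : i (C β) ≠ 0 := by
    rw [Ne, map_eq_zero_iff i hi0, C_eq_zero]
    exact hβ
  have ha : a ≠ 0 := by
    rintro rfl
    apply hβ'
    rw [← h2]
    ring
  have h4 : (i (C (1 / 4))) * 4 = 1 := by
    have : (4 : FractionRing K[X]) = i (C 4) := by
      rw [show (C 4 : K[X]) = 4 from map_ofNat C 4, map_ofNat]
    rw [this, ← map_mul, ← C_mul]
    norm_num
  have h3 : a ^ 4 - i α * a ^ 2 + i (C (1 / 4) * C β ^ 2 * (X ^ 3 + X)) = 0 := by
    rw [map_mul, map_mul, map_pow, ← h2, ← h1]
    linear_combination (a ^ 2 * b ^ 2 * i (X ^ 3 + X)) * h4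
  have hint : IsIntegral K[X] a := by
    refine ⟨X ^ 4 - C α * X ^ 2 + C (C (1 / 4) * C β ^ 2 * (X ^ 3 + X)), ?_, ?_⟩
    · monicity!
    · rw [eval₂_add, eval₂_sub, eval₂_mul, eval₂_pow, eval₂_pow, eval₂_X, eval₂_C, eval₂_C]
      exact h3
  obtain ⟨c, hc⟩ := IsIntegrallyClosed.isIntegral_iff.1 hint
  rw [← hc, ← hi, ← map_pow, ← map_pow, ← map_mul, ← map_sub, ← map_add,
    map_eq_zero_iff i hi0] at h3
  have hk : (C (1 / 4) * C β ^ 2 : K[X]) = C (1 / 4 * β ^ 2) := by
    rw [C_mul, C_pow]
  have hk0 : (1 / 4 * β ^ 2 : K) ≠ 0 :=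
    mul_ne_zero (by norm_num) (pow_ne_zero _ hβ)
  rw [hk] at h3
  have hdvd : c * c ∣ X ^ 3 + X := by
    have h5 : c * c ∣ C (1 / 4 * β ^ 2) * (X ^ 3 + X) := by
      refine ⟨α - c ^ 2, ?_⟩
      linear_combination h3
    exact ((isUnit_C.2 (Ne.isUnit hk0)).dvd_mul_left).1 h5
  have hc1 : IsUnit c := squarefree_f c hdvd
  have hc0 : c.natDegree = 0 := natDegree_eq_zero_of_isUnit hc1
  have h6 : C (1 / 4 * β ^ 2) * (X ^ 3 + X) = α * c ^ 2 - c ^ 4 := by
    linear_combination h3
  have h7 := congrArg natDegree h6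
  rw [natDegree_C_mul hk0, natDegree_f] at h7
  have h8 : (α * c ^ 2 - c ^ 4).natDegree ≤ 2 := by
    refine (natDegree_sub_le _ _).trans (max_le ?_ ?_)
    · refine natDegree_mul_le.trans ?_
      rw [natDegree_pow, hc0]
      omega
    · rw [natDegree_pow, hc0]
      omega
  omega

/-- `2 (x^2+1)` is not a square in the function field -/
theorem not_sq_two (a b : FractionRing K[X])
    (h1 : a ^ 2 + b ^ 2 * algebraMap K[X] (FractionRing K[X]) (X ^ 3 + X) =
      algebraMap K[X] (FractionRing K[X]) (2 * X ^ 2 + 2))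
    (h2 : 2 * a * b = 0) : False := by
  set i := algebraMap K[X] (FractionRing K[X]) with hi
  have hi0 : Function.Injective i := IsFractionRing.injective K[X] (FractionRing K[X])
  have h20 : (2 : FractionRing K[X]) ≠ 0 := by
    rw [← map_ofNat i 2, Ne, map_eq_zero_iff i hi0, ← map_ofNat C 2, C_eq_zero]
    exact two_ne_zero
  have hx : (X ^ 2 + 1 : K[X]) ≠ 0 := by
    intro h
    have := congrArg natDegree h
    rw [natDegree_zero] at this
    have h' : (X ^ 2 + 1 : K[X]).natDegree = 2 := by compute_degree!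
    omega
  rcases mul_eq_zero.1 h2 with h | h
  · have ha : a = 0 := (mul_eq_zero.1 h).resolve_left h20
    rw [ha] at h1
    have h3 : i (X ^ 2 + 1) * (b ^ 2 * i X - i (C 2)) = 0 := by
      have e1 : i (X ^ 3 + X) = i (X ^ 2 + 1) * i X := by
        rw [← map_mul]
        congr 1
        ring
      have e2 : i (2 * X ^ 2 + 2) = i (X ^ 2 + 1) * i (C 2) := by
        rw [← map_mul]
        congr 1
        rw [show (C 2 : K[X]) = 2 from map_ofNat C 2]
        ring
      rw [e1, e2] at h1
      linear_combination h1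
    have h4 : b ^ 2 * i X = i (C 2) := by
      rcases mul_eq_zero.1 h3 with h5 | h5
      · rw [map_eq_zero_iff i hi0] at h5
        exact absurd h5 hx
      · exact sub_eq_zero.1 h5
    have hb : b ≠ 0 := by
      rintro rfl
      have h5 : i (C 2) = 0 := by
        rw [← h4]
        ring
      rw [map_eq_zero_iff i hi0, C_eq_zero] at h5
      exact two_ne_zero h5
    exact x_not_two_sq hb 2 two_ne_zero h4
  · rw [h] at h1
    have hint : IsIntegral K[X] a := by
      refine ⟨X ^ 2 - C (2 * X ^ 2 + 2), ?_, ?_⟩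
      · monicity!
      · rw [eval₂_sub, eval₂_pow, eval₂_X, eval₂_C]
        linear_combination h1
    obtain ⟨c, hc⟩ := IsIntegrallyClosed.isIntegral_iff.1 hint
    rw [← hc, ← hi] at h1
    have h3 : c ^ 2 = 2 * X ^ 2 + 2 := by
      apply hi0
      rw [map_pow]
      linear_combination h1
    have hd : c * c ∣ X ^ 3 + X := by
      refine ⟨C (1 / 2) * X, ?_⟩
      have h5 : (C (1 / 2) : K[X]) * 2 = 1 := by
        rw [← map_ofNat C 2, ← C_mul]
        norm_num
      linear_combination (-C (1 / 2) * X) * h3 - (X ^ 3 + X) * h5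
    have hc1 : c.natDegree = 0 := natDegree_eq_zero_of_isUnit (squarefree_f c hd)
    have h4 := congrArg natDegree h3
    have h5 : (2 * X ^ 2 + 2 : K[X]).natDegree = 2 := by compute_degree!
    rw [natDegree_pow, hc1, h5] at h4
    omega

end

end BB37
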