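import Pool.Agent.Lib.MP_bb37eb_nt.AR.NonSq

/-! The chart rings are integral domains. -/

namespace BB37

open scoped Polynomial

section Indep

variable {L Ω : Type*} [Field L] [Field Ω] [Algebra L Ω] {f α β : L} {y w : Ω}
  (hy : y ^ 2 = algebraMap L Ω f) (hf : ∀ l : L, l ^ 2 ≠ f)
  (hw : w ^ 2 = algebraMap L Ω α + algebraMap L Ω β * y)
  (hs : ∀ a b : L, a ^ 2 + b ^ 2 * f = α → 2 * a * b = β → False)

include hy hf

theorem indep_y {p q : L} (h : algebraMap L Ω p + algebraMap L Ω q * y = 0) :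
    p = 0 ∧ q = 0 := by
  have hq : q = 0 := by
    by_contra hq
    apply hf (-p / q)
    apply (algebraMap L Ω).injective
    have hq' : algebraMap L Ω q ≠ 0 := by rwa [Ne, map_eq_zero]
    have e : algebraMap L Ω (-p / q) = y := by
      rw [map_div₀, map_neg, div_eq_iff hq']
      linear_combination -h
    rw [map_pow, e, hy]
  refine ⟨?_, hq⟩
  rw [hq, map_zero, zero_mul, add_zero, map_eq_zero] at h
  exact h

include hw hs

theorem indep_yw {p₀ p₁ p₂ p₃ : L}
    (h : algebraMap L Ω p₀ + algebraMap L Ω p₁ * y + algebraMap L Ω p₂ * w +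
      algebraMap L Ω p₃ * (y * w) = 0) : p₀ = 0 ∧ p₁ = 0 ∧ p₂ = 0 ∧ p₃ = 0 := by
  by_cases h23 : p₂ = 0 ∧ p₃ = 0
  · obtain ⟨h2, h3⟩ := h23
    rw [h2, h3, map_zero, zero_mul, zero_mul, add_zero, add_zero] at h
    obtain ⟨h4, h5⟩ := indep_y hy hf h
    exact ⟨h4, h5, h2, h3⟩
  exfalso
  have hn : p₂ ^ 2 - p₃ ^ 2 * f ≠ 0 := by
    intro h0
    by_cases h3 : p₃ = 0
    · rw [h3] at h0
      apply h23
      refine ⟨?_, h3⟩
      apply pow_eq_zero_iff two_ne_zero |>.1
      linear_combination h0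
    · apply hf (p₂ / p₃)
      rw [div_pow, div_eq_iff (pow_ne_zero _ h3)]
      linear_combination h0
  set n := p₂ ^ 2 - p₃ ^ 2 * f with hn'
  have hnΩ : algebraMap L Ω n ≠ 0 := by rwa [Ne, map_eq_zero]
  set a : L := -(p₀ * p₂ - p₁ * p₃ * f) / n with ha
  set b : L := -(p₁ * p₂ - p₀ * p₃) / n with hb
  have e : w = algebraMap L Ω a + algebraMap L Ω b * y := by
    apply mul_left_cancel₀ hnΩ
    rw [mul_add, ← mul_assoc, ← map_mul, ← map_mul, ha, hb, mul_div_cancel₀ _ hn,
      mul_div_cancel₀ _ hn, hn']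
    simp only [map_neg, map_sub, map_mul, map_pow]
    linear_combination (algebraMap L Ω p₂ - algebraMap L Ω p₃ * y) * h +
      (algebraMap L Ω p₁ * algebraMap L Ω p₃ + algebraMap L Ω p₃ ^ 2 * w) * hy
  rw [e] at hw
  have h4 : algebraMap L Ω (a ^ 2 + b ^ 2 * f - α) + algebraMap L Ω (2 * a * b - β) * y = 0 := by
    simp only [map_sub, map_add, map_mul, map_pow, map_ofNat]
    linear_combination hw - algebraMap L Ω b ^ 2 * hy
  obtain ⟨h5, h6⟩ := indep_y hy hf h4
  exact hs a b (sub_eq_zero.1 h5) (sub_eq_zero.1 h6)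

end Indep

section Prime

open MvPolynomial (C X aeval)

variable {k : Type*} [CommRing k]

/-- the two equations `y^2 = x^3 + x`, `w^2 = alpha(x) + beta y` -/
noncomputable def gg (α : k[X]) (β : k) : Fin 2 → MvPolynomial (Fin 3) k :=
  ![X 1 ^ 2 - (X 0 ^ 3 + X 0), X 2 ^ 2 - (Polynomial.aeval (X 0) α + C β * X 1)]

theorem gg_zero (α : k[X]) (β : k) : gg α β 0 = X 1 ^ 2 - (X 0 ^ 3 + X 0) := rfl

theorem gg_one (α : k[X]) (β : k) :
    gg α β 1 = X 2 ^ 2 - (Polynomial.aeval (X 0) α + C β * X 1) := rfl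

/-- normal form modulo the two equations -/
theorem normal_form (α : k[X]) (β : k) (F : MvPolynomial (Fin 3) k) :
    ∃ p₀ p₁ p₂ p₃ : k[X], F - (Polynomial.aeval (X 0) p₀ + Polynomial.aeval (X 0) p₁ * X 1 +
      Polynomial.aeval (X 0) p₂ * X 2 + Polynomial.aeval (X 0) p₃ * (X 1 * X 2)) ∈
      Ideal.span (Set.range (gg α β)) := by
  set I := Ideal.span (Set.range (gg α β)) with hI
  have hg0 : (X 1 ^ 2 - (X 0 ^ 3 + X 0) : MvPolynomial (Fin 3) k) ∈ I :=
    Ideal.subset_span ⟨0, rfl⟩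
  have hg1 : (X 2 ^ 2 - (Polynomial.aeval (X 0) α + C β * X 1) : MvPolynomial (Fin 3) k) ∈ I :=
    Ideal.subset_span ⟨1, rfl⟩
  induction F using MvPolynomial.induction_on with
  | C a =>
    refine ⟨Polynomial.C a, 0, 0, 0, ?_⟩
    simp
  | add p q hp hq =>
    obtain ⟨p₀, p₁, p₂, p₃, h1⟩ := hp
    obtain ⟨q₀, q₁, q₂, q₃, h2⟩ := hq
    refine ⟨p₀ + q₀, p₁ + q₁, p₂ + q₂, p₃ + q₃, ?_⟩
    convert I.add_mem h1 h2 using 1
    simp only [map_add]
    ring
  | mul_X p j hp =>
    obtain ⟨p₀, p₁, p₂, p₃, h1⟩ := hp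
    have h2 := I.mul_mem_right (X j) h1
    fin_cases j
    · refine ⟨p₀ * Polynomial.X, p₁ * Polynomial.X, p₂ * Polynomial.X, p₃ * Polynomial.X, ?_⟩
      convert h2 using 1
      simp only [map_mul, Polynomial.aeval_X, Fin.zero_eta]
      ring
    · refine ⟨p₁ * (Polynomial.X ^ 3 + Polynomial.X), p₀,
        p₃ * (Polynomial.X ^ 3 + Polynomial.X), p₂, ?_⟩
      have h3 := I.mul_mem_left (Polynomial.aeval (X 0) p₁ + Polynomial.aeval (X 0) p₃ * X 2) hg0
      convert I.add_mem h2 h3 using 1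
      simp only [map_mul, map_add, map_pow, Polynomial.aeval_X, Fin.mk_one]
      ring
    · refine ⟨p₂ * α + p₃ * Polynomial.C β * (Polynomial.X ^ 3 + Polynomial.X),
        p₂ * Polynomial.C β + p₃ * α, p₀, p₁, ?_⟩
      have h3 := I.mul_mem_left (Polynomial.aeval (X 0) p₂ + Polynomial.aeval (X 0) p₃ * X 1) hg1
      have h4 := I.mul_mem_left (Polynomial.aeval (X 0) p₃ * C β) hg0
      convert I.add_mem (I.add_mem h2 h3) h4 using 1
      simp only [map_mul, map_add, map_pow, Polynomial.aeval_X, Polynomial.aeval_C,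
        MvPolynomial.algebraMap_eq, Fin.reduceFinMk]
      ring

variable [IsDomain k] [CharZero k]

/-- the ideal of the two equations is prime -/
theorem isPrime_gg (α : k[X]) (β : k)
    (h : (β ≠ 0 ∧ α.natDegree ≤ 2) ∨ (β = 0 ∧ α = 2 * Polynomial.X ^ 2 + 2)) :
    (Ideal.span (Set.range (gg α β))).IsPrime := by
  let K := FractionRing k
  let L := FractionRing K[X]
  let Ω := AlgebraicClosure L
  have hK : CharZero K := charZero_of_injective_algebraMap (IsFractionRing.injective k K)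
  let φ : k[X] →+* L := (algebraMap K[X] L).comp (Polynomial.mapRingHom (algebraMap k K))
  have hφ : Function.Injective φ :=
    (IsFractionRing.injective K[X] L).comp
      (Polynomial.map_injective _ (IsFractionRing.injective k K))
  let ψ : k[X] →+* Ω := (algebraMap L Ω).comp φ
  obtain ⟨y, hy⟩ := IsAlgClosed.exists_pow_nat_eq (ψ (Polynomial.X ^ 3 + Polynomial.X))
    two_pos
  obtain ⟨w, hw⟩ := IsAlgClosed.exists_pow_nat_eq (ψ α + ψ (Polynomial.C β) * y) two_pos
  have hf : ∀ l : L, l ^ 2 ≠ φ (Polynomial.X ^ 3 + Polynomial.X) := by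
    intro l hl
    apply f_not_sq l
    rw [hl]
    change algebraMap K[X] L (Polynomial.map _ _) = _
    rw [Polynomial.map_add, Polynomial.map_pow, Polynomial.map_X]
  have hs : ∀ a b : L, a ^ 2 + b ^ 2 * φ (Polynomial.X ^ 3 + Polynomial.X) = φ α →
      2 * a * b = φ (Polynomial.C β) → False := by
    intro a b h1 h2
    have e1 : φ (Polynomial.X ^ 3 + Polynomial.X) = algebraMap K[X] L
        (Polynomial.X ^ 3 + Polynomial.X) := by
      change algebraMap K[X] L (Polynomial.map _ _) = _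
      rw [Polynomial.map_add, Polynomial.map_pow, Polynomial.map_X]
    rw [e1] at h1
    rcases h with ⟨hβ, hα⟩ | ⟨hβ, hα⟩
    · refine not_sq_one (α := α.map (algebraMap k K)) (β := algebraMap k K β) ?_ ?_ a b h1 ?_
      · rw [Ne, map_eq_zero_iff _ (IsFractionRing.injective k K)]
        exact hβ
      · exact Polynomial.natDegree_map_le.trans hα
      · rw [h2]
        change algebraMap K[X] L (Polynomial.map _ _) = _
        rw [Polynomial.map_C]
    · apply not_sq_two a b
      · rw [h1, hα]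
        change algebraMap K[X] L (Polynomial.map _ _) = _
        congr 1
        simp
      · rw [h2, hβ, Polynomial.C_0, map_zero]
  let _ : Algebra k Ω := (ψ.comp Polynomial.C).toAlgebra
  let θ : MvPolynomial (Fin 3) k →ₐ[k] Ω := aeval ![ψ Polynomial.X, y, w]
  have hθX : ∀ p : k[X], θ (Polynomial.aeval (X 0) p) = ψ p := by
    intro p
    have e : (θ.toRingHom.comp (Polynomial.aeval (R := k)
        (X 0 : MvPolynomial (Fin 3) k)).toRingHom) = ψ := by
      apply Polynomial.ringHom_ext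
      · intro a
        simp [θ]
        rfl
      · simp [θ]
    exact congrArg (fun g : k[X] →+* Ω => g p) e
  have h0 : θ (X 0) = ψ Polynomial.X := by simp [θ]
  have h1 : θ (X 1) = y := by simp [θ]
  have h2 : θ (X 2) = w := by simp [θ]
  have hC : ∀ c : k, θ (C c) = ψ (Polynomial.C c) := by
    intro c
    rw [← MvPolynomial.algebraMap_eq, AlgHom.commutes]
    rfl
  have hg0 : θ (gg α β 0) = 0 := by
    rw [gg_zero, map_sub, map_add, map_pow, map_pow, h0, h1, hy, map_add, map_pow, sub_self]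
  have hg1 : θ (gg α β 1) = 0 := by
    rw [gg_one, map_sub, map_add, map_mul, map_pow, h1, h2, hw, hθX, hC, sub_self]
  have hle : Ideal.span (Set.range (gg α β)) ≤ RingHom.ker θ := by
    rw [Ideal.span_le]
    rintro _ ⟨i, rfl⟩
    rw [SetLike.mem_coe, RingHom.mem_ker]
    fin_cases i
    · exact hg0
    · exact hg1
  have hker : Ideal.span (Set.range (gg α β)) = RingHom.ker θ := by
    apply le_antisymm hle
    intro F hF
    rw [RingHom.mem_ker] at hF
    obtain ⟨p₀, p₁, p₂, p₃, h3⟩ := normal_form α β F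
    have h4 := hle h3
    rw [RingHom.mem_ker, map_sub, hF, zero_sub, neg_eq_zero] at h4
    simp only [map_add, map_mul, hθX, h1, h2] at h4
    obtain ⟨e0, e1, e2, e3⟩ := indep_yw (L := L) (Ω := Ω) hy hf hw hs
      (p₀ := φ p₀) (p₁ := φ p₁) (p₂ := φ p₂) (p₃ := φ p₃) h4
    rw [map_eq_zero_iff φ hφ] at e0 e1 e2 e3
    rw [e0, e1, e2, e3] at h3
    simpa using h3
  rw [hker]
  exact RingHom.ker_isPrime _

end Prime

end BB37
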