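import Mathlib

/-! The 2-adic obstruction: the values of the function at the two points. -/

namespace BB37

theorem norm_sq_ne_half (z : ℚ_[2]) : ‖z‖ ^ 2 ≠ 1 / 2 := by
  intro h
  have hz : z ≠ 0 := by
    rintro rfl
    norm_num at h
  rw [Padic.norm_eq_zpow_neg_valuation hz] at h
  push_cast at h
  rw [← zpow_natCast, ← zpow_mul] at h
  have h2 : (1 / 2 : ℝ) = 2 ^ (-1 : ℤ) := by norm_num
  rw [h2] at h
  have h3 := zpow_right_injective₀ (by norm_num : (0 : ℝ) < 2) (by norm_num) h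
  omega

theorem norm_two : ‖(2 : ℚ_[2])‖ = 1 / 2 := by
  have h := Padic.norm_p (p := 2)
  push_cast at h
  rw [h]
  norm_num

/-- twice a square of a nonzero number is not a square -/
theorem two_mul_sq_ne {w z : ℚ_[2]} (hz : z ≠ 0) : w ^ 2 ≠ 2 * z ^ 2 := by
  intro h
  apply norm_sq_ne_half (w / z)
  have h1 := congrArg (fun x => ‖x‖) h
  simp only [norm_mul, norm_pow, norm_two] at h1
  have h2 : ‖z‖ ≠ 0 := norm_ne_zero_iff.2 hz
  rw [norm_div, div_pow, h1]
  field_simp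

theorem norm_quad (t : ℚ_[2]) : ∃ z : ℚ_[2], z ≠ 0 ∧ ‖t ^ 2 + t + 1‖ = ‖z‖ ^ 2 := by
  by_cases ht : ‖t‖ ≤ 1
  · refine ⟨1, one_ne_zero, ?_⟩
    obtain ⟨a, rfl⟩ : ∃ a : ℤ_[2], (a : ℚ_[2]) = t := ⟨⟨t, ht⟩, rfl⟩
    have h1 : ‖a ^ 2 + a‖ < 1 := by
      rw [PadicInt.norm_lt_one_iff_dvd]
      have h2 : PadicInt.toZMod (p := 2) (a ^ 2 + a) = 0 := by
        rw [map_add, map_pow]
        generalize PadicInt.toZMod (p := 2) a = c
        revert c
        decide
      have h3 : a ^ 2 + a ∈ RingHom.ker (PadicInt.toZMod (p := 2)) := h2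
      rw [PadicInt.ker_toZMod, PadicInt.maximalIdeal_eq_span_p, Ideal.mem_span_singleton] at h3
      exact h3
    have h4 : ‖((a ^ 2 + a : ℤ_[2]) : ℚ_[2])‖ < 1 := h1
    push_cast at h4
    have h5 : ‖(1 : ℚ_[2])‖ = 1 := norm_one
    have h6 := Padic.add_eq_max_of_ne (p := 2) (q := (a : ℚ_[2]) ^ 2 + a) (r := 1) (by
      rw [h5]
      exact h4.ne)
    rw [h6, h5, max_eq_right h4.le, one_pow]
  · push Not at ht
    refine ⟨t, ?_, ?_⟩
    · rintro rfl
      norm_num at ht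
    · have h5 : ‖t + 1‖ ≤ ‖t‖ := (Padic.nonarchimedean _ _).trans (by
        rw [norm_one]
        exact max_le le_rfl ht.le)
      have h7 : ‖t‖ < ‖t ^ 2‖ := by
        rw [norm_pow, pow_two]
        nlinarith
      have h6 := Padic.add_eq_max_of_ne (p := 2) (q := t ^ 2) (r := t + 1)
        (h5.trans_lt h7).ne'
      rw [add_assoc, h6, max_eq_left (h5.trans h7.le), norm_pow]

/-- the value at the point of order two -/
theorem quad_ne (w t : ℚ_[2]) : w ^ 2 ≠ 2 * t ^ 2 + 2 * t + 2 := by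
  intro h
  obtain ⟨z, hz, h1⟩ := norm_quad t
  apply norm_sq_ne_half (w / z)
  have h2 : w ^ 2 = 2 * (t ^ 2 + t + 1) := by
    rw [h]
    ring
  have h3 := congrArg (fun x => ‖x‖) h2
  simp only [norm_mul, norm_pow, norm_two, h1] at h3
  have h4 : ‖z‖ ≠ 0 := norm_ne_zero_iff.2 hz
  rw [norm_div, div_pow, h3]
  field_simp

theorem sq_ne_two (w : ℚ_[2]) : w ^ 2 ≠ 2 := by
  have h := two_mul_sq_ne (w := w) (z := 1) one_ne_zero
  rwa [one_pow, mul_one] at h

/-- a square root of 2 in the 7-adic numbers -/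
theorem exists_sqrt_two [Fact (Nat.Prime 7)] : ∃ z : ℚ_[7], z ^ 2 = 2 := by
  have hp : Fact (Nat.Prime 7) := inferInstance
  let F : Polynomial ℤ_[7] := Polynomial.X ^ 2 - Polynomial.C 2
  have h1 : F.eval 3 = 7 := by
    simp only [F, Polynomial.eval_sub, Polynomial.eval_pow, Polynomial.eval_X, Polynomial.eval_C]
    norm_num
  have h2 : F.derivative.eval 3 = 6 := by
    simp only [F, Polynomial.derivative_sub, Polynomial.derivative_X_pow, Polynomial.derivative_C,
      Polynomial.eval_sub, Polynomial.eval_mul, Polynomial.eval_pow, Polynomial.eval_X]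
    simp
    norm_num
  have h6 : ‖(6 : ℤ_[7])‖ = 1 := by
    have h : ((6 : ℕ) : ℤ_[7]) = 6 := by norm_num
    rw [← h]
    apply le_antisymm (PadicInt.norm_le_one _)
    by_contra hc
    push Not at hc
    rw [← Int.cast_natCast, PadicInt.norm_int_lt_one_iff_dvd] at hc
    norm_num at hc
  have h7 : ‖(7 : ℤ_[7])‖ < 1 := by
    have h : ((7 : ℕ) : ℤ_[7]) = 7 := by norm_num
    rw [← h]
    rw [PadicInt.norm_p]
    norm_num
  obtain ⟨z, hz, _⟩ := hensels_lemma (p := 7) (F := F) (a := (3 : ℤ_[7])) (by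
    rw [Polynomial.aeval_def, Polynomial.aeval_def] 
    simp only [Algebra.algebraMap_self, Polynomial.eval₂_id]
    rw [h1, h2, h6, one_pow]
    exact h7)
  refine ⟨(z : ℚ_[7]), ?_⟩
  have h8 : z ^ 2 = 2 := by
    rw [Polynomial.aeval_def] at hz
    simp only [Algebra.algebraMap_self, Polynomial.eval₂_id, F, Polynomial.eval_sub,
      Polynomial.eval_pow, Polynomial.eval_X, Polynomial.eval_C] at hz
    exact sub_eq_zero.1 hz
  have h9 := congrArg (fun x : ℤ_[7] => (x : ℚ_[7])) h8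
  push_cast at h9
  exact h9

end BB37
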